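import Pool.Agent.R982.TC.Defs

/-!
# Piece M of project TC (MP_3e3c2c_co): monotonicity of `tcr` in the number of colours
-/

open Finset Filter
open scoped ENNReal

namespace Pool.Agent.R982.TC.Mono

open Pool.Agent.R982.TC

/-- recolouring with more colours -/
def recol {A : Type} {r r' : ℕ} (h : r ≤ r') (X : ColGraph A r) : ColGraph A r' where
  G := X.G
  χ := fun e => Fin.castLE h (X.χ e)

theorem mono_tree {A : Type} {r r' : ℕ} (hr : 1 ≤ r) (h : r ≤ r') (X : ColGraph A r)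
    (H : X.G.Subgraph) (hH : (recol h X).IsMonoTree H) : X.IsMonoTree H := by
  obtain ⟨h1, i, hi⟩ := hH
  refine ⟨h1, ?_⟩
  by_cases he : ∃ e : Sym2 A, e ∈ H.edgeSet
  · obtain ⟨e, he⟩ := he
    refine ⟨X.χ ⟨e, H.edgeSet_subset he⟩, fun e' he' => ?_⟩
    have h2 := hi e he
    have h3 := hi e' he'
    exact Fin.castLE_injective h (h3.trans h2.symm)
  · exact ⟨⟨0, hr⟩, fun e he' => absurd ⟨e, he'⟩ he⟩

theorem tc_le {A : Type} {r r' : ℕ} (hr : 1 ≤ r) (h : r ≤ r') (X : ColGraph A r) :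
    X.tc ≤ (recol h X).tc := by
  unfold ColGraph.tc
  refine le_iInf₂ fun k hk => ?_
  refine iInf₂_le k ?_
  obtain ⟨F, h1, h2⟩ := hk
  exact ⟨F, fun i => mono_tree hr h X (F i) (h1 i), h2⟩

theorem mono_ok : St_Mono := by
  intro r r' δ hr h
  unfold tcr
  refine limsup_le_limsup (Eventually.of_forall fun n => ?_)
  refine iSup_le fun X => ?_
  refine (tc_le hr h X.1).trans ?_
  exact le_iSup (fun X : {X : ColGraph (Fin n) r' // X.MinDeg δ} => X.1.tc)
    ⟨recol h X.1, X.2⟩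

end Pool.Agent.R982.TC.Mono
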